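import Pool.Agent.R645.RegTree

/-!
# The lattices `R(G)`, `G` a finite graph, satisfy no nontrivial lattice identity

For a finite strict ordering `e` on a set `E` let `G` be the graph on the set of all up-sets of `E`
in which two up-sets are adjacent if they differ by one element.  The lattice `Reg(e)` of regular
closed subsets of `e` is isomorphic to an interval of `R(G)`: a pair `(a, b) ∈ e` corresponds to the
connected set `X a b` of all up-sets which contain `b` but not `a`.  A linear functional with values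
in a linearly ordered group which vanishes on the sets `X a b` but on no other connected set divides
the other connected sets in two classes.
-/

set_option autoImplicit false

namespace Pool.Agent.T9h76.RegGraph

open Pool.Agent.R645.RegTree (LTerm)
open Pool.Agent.R645

/-! ### The lattice `R(G)` -/

section RG

variable {V : Type*} (G : SimpleGraph V)

/-- `so(G)`: the nonempty sets of vertices which induce a connected subgraph. -/
def So : Type _ := {X : Set V // (G.induce X).Connected}

variable {G}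

/-- A family of connected sets is closed if it contains with two disjoint members also their union
provided that this union is connected. -/
def IsClosedFamily (a : Set (So G)) : Prop :=
  ∀ X Y Z : So G, X ∈ a → Y ∈ a → Disjoint X.1 Y.1 → Z.1 = X.1 ∪ Y.1 → Z ∈ a

/-- the least closed family containing `a` -/
def cl (a : Set (So G)) : Set (So G) := ⋂₀ {b | IsClosedFamily b ∧ a ⊆ b}

/-- the interior operator -/
def int (a : Set (So G)) : Set (So G) := (cl aᶜ)ᶜ

/-- regular closed families -/
def IsRegularClosed (a : Set (So G)) : Prop := a = cl (int a)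

variable (G) in
/-- `R(G)`: the regular closed families of connected sets -/
def R : Type _ := {a : Set (So G) // IsRegularClosed a}

theorem subset_cl (a : Set (So G)) : a ⊆ cl a := fun _ hx _ hb => hb.2 hx

theorem cl_closed (a : Set (So G)) : IsClosedFamily (cl a) := by
  intro X Y Z hX hY hd hZ b hb
  exact hb.1 X Y Z (hX b hb) (hY b hb) hd hZ

theorem cl_min {a b : Set (So G)} (h : a ⊆ b) (hb : IsClosedFamily b) : cl a ⊆ b :=
  fun _ hx => hx b ⟨hb, h⟩

theorem cl_mono {a b : Set (So G)} (h : a ⊆ b) : cl a ⊆ cl b :=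
  cl_min (h.trans (subset_cl b)) (cl_closed b)

theorem cl_cl (a : Set (So G)) : cl (cl a) = cl a :=
  Set.Subset.antisymm (cl_min subset_rfl (cl_closed a)) (subset_cl _)

theorem int_subset (a : Set (So G)) : int a ⊆ a := by
  intro s hs
  by_contra h
  exact hs (subset_cl _ h)

theorem int_mono {a b : Set (So G)} (h : a ⊆ b) : int a ⊆ int b := by
  intro s hs hs'
  exact hs (cl_mono (Set.compl_subset_compl.2 h) hs')

theorem int_int (a : Set (So G)) : int (int a) = int a := by
  unfold int
  rw [compl_compl, cl_cl]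

theorem regular_of_open {a : Set (So G)} (h : int a = a) : IsRegularClosed (cl a) := by
  unfold IsRegularClosed
  refine Set.Subset.antisymm (cl_mono ?_) ?_
  · calc a = int a := h.symm
      _ ⊆ int (cl a) := int_mono (subset_cl _)
  · exact cl_min (int_subset _) (cl_closed _)

theorem R.closed (a : R G) : IsClosedFamily a.1 := by
  rw [a.2]
  exact cl_closed _

/-- join -/
def R.sup (a b : R G) : R G := ⟨cl (a.1 ∪ b.1), by
  unfold IsRegularClosed
  refine Set.Subset.antisymm ?_ (cl_min (int_subset _) (cl_closed _))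
  refine cl_min (Set.union_subset ?_ ?_) (cl_closed _)
  · intro s hs
    rw [a.2] at hs
    exact cl_mono (int_mono (Set.subset_union_left.trans (subset_cl _))) hs
  · intro s hs
    rw [b.2] at hs
    exact cl_mono (int_mono (Set.subset_union_right.trans (subset_cl _))) hs⟩

/-- meet -/
def R.inf (a b : R G) : R G := ⟨cl (int (a.1 ∩ b.1)), regular_of_open (int_int _)⟩

variable (G) in
/-- The lattice `R(G)`, ordered by inclusion. -/
@[instance_reducible]
def R.lattice : Lattice (R G) where
  le a b := a.1 ⊆ b.1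
  le_refl a := subset_rfl
  le_trans a b c h h' := Set.Subset.trans h h'
  le_antisymm a b h h' := Subtype.ext (Set.Subset.antisymm h h')
  sup := R.sup
  le_sup_left a b := Set.subset_union_left.trans (subset_cl _)
  le_sup_right a b := Set.subset_union_right.trans (subset_cl _)
  sup_le a b c h h' := cl_min (Set.union_subset h h') c.closed
  inf := R.inf
  inf_le_left a b := cl_min ((int_subset _).trans Set.inter_subset_left) a.closed
  inf_le_right a b := cl_min ((int_subset _).trans Set.inter_subset_right) b.closed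
  le_inf a b c h h' := by
    show a.1 ⊆ cl (int (b.1 ∩ c.1))
    intro s hs
    rw [a.2] at hs
    exact cl_mono (int_mono (Set.subset_inter h h')) hs

end RG

/-! ### Linear orders on rational vector spaces -/

theorem exists_order (M : Type*) [AddCommGroup M] [Module ℚ M] [FiniteDimensional ℚ M] :
    ∃ (n : ℕ) (f : M → Lex (Fin n → ℚ)), (∀ x y, f (x + y) = f x + f y) ∧ ∀ x, f x = 0 ↔ x = 0 := by
  classical
  let b := Module.finBasis ℚ M
  refine ⟨_, fun x => toLex (b.equivFun x), fun x y => ?_, fun x => ?_⟩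
  · show toLex (b.equivFun (x + y)) = toLex (b.equivFun x) + toLex (b.equivFun y)
    rw [map_add]; rfl
  · constructor
    · intro h
      have : b.equivFun x = 0 := h
      simpa using this
    · rintro rfl
      show toLex (b.equivFun 0) = 0
      rw [map_zero]; rfl

/-! ### The graph of up-sets -/

section Graph

variable {E : Type*} (e : Set (E × E))

/-- the up-sets of the strict ordering `e` -/
def Up : Type _ := {h : Set E // ∀ a b, (a, b) ∈ e → a ∈ h → b ∈ h}

/-- two up-sets are adjacent if they differ by one element -/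
def gr : SimpleGraph (Up e) where
  Adj h h' := (∃ c, c ∉ h.1 ∧ h'.1 = insert c h.1) ∨ (∃ c, c ∉ h'.1 ∧ h.1 = insert c h'.1)
  symm := ⟨fun _ _ h => h.symm⟩
  loopless := ⟨by
    rintro h (⟨c, hc, h'⟩ | ⟨c, hc, h'⟩)
    · exact hc (by rw [h']; exact Set.mem_insert _ _)
    · exact hc (by rw [h']; exact Set.mem_insert _ _)⟩

/-- the up-sets containing `b` but not `a` -/
def X (a b : E) : Set (Up e) := {h | a ∉ h.1 ∧ b ∈ h.1}

variable {e}

open Pool.Agent.R645.RegTree (IsTransitive IsStrictOrdering)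

/-- `{c | b ≤ c}` -/
def up (he : IsTransitive e) (b : E) : Up e := ⟨{c | c = b ∨ (b, c) ∈ e}, by
  rintro a c hac (rfl | h)
  · exact Or.inr hac
  · exact Or.inr (he _ _ _ h hac)⟩

/-- `{c | b < c}` -/
def up' (he : IsTransitive e) (b : E) : Up e := ⟨{c | (b, c) ∈ e}, by
  rintro a c hac h
  exact he _ _ _ h hac⟩

/-- `{c | ¬ c ≤ b}` -/
def dn (he : IsTransitive e) (b : E) : Up e := ⟨{c | ¬ (c = b ∨ (c, b) ∈ e)}, by
  rintro a c hac h (rfl | h')
  · exact h (Or.inr hac)
  · exact h (Or.inr (he _ _ _ hac h'))⟩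

/-- `{c | ¬ c < b}` -/
def dn' (he : IsTransitive e) (b : E) : Up e := ⟨{c | ¬ (c, b) ∈ e}, by
  rintro a c hac h h'
  exact h (he _ _ _ hac h')⟩

theorem wf [Finite E] (he : IsStrictOrdering e) : WellFounded (fun x y => (x, y) ∈ e) := by
  have : IsTrans E (fun x y => (x, y) ∈ e) := ⟨he.2⟩
  have : Std.Irrefl (fun x y => (x, y) ∈ e) := ⟨he.1⟩
  exact Finite.wellFounded_of_trans_of_irrefl _

theorem X_connected [Finite E] (he : IsStrictOrdering e) {a b : E} (hab : (a, b) ∈ e) :
    ((gr e).induce (X e a b)).Connected := by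
  have h0 : up he.2 b ∈ X e a b := by
    refine ⟨?_, Or.inl rfl⟩
    rintro (h | h)
    · rw [h] at hab; exact he.1 _ hab
    · exact he.1 _ (he.2 _ _ _ hab h)
  have key : ∀ (n : ℕ) (h : Up e) (hh : h ∈ X e a b), h.1.ncard = n →
      ((gr e).induce (X e a b)).Reachable ⟨h, hh⟩ ⟨up he.2 b, h0⟩ := by
    intro n
    induction n with
    | zero =>
      intro h hh hn
      rw [Set.ncard_eq_zero (Set.toFinite _)] at hn
      have := hh.2
      rw [hn] at this
      exact this.elim
    | succ n ih =>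
      intro h hh hn
      by_cases hne : (h.1 \ (up he.2 b).1).Nonempty
      · obtain ⟨c, hc, hmin⟩ := (wf he).has_min _ hne
        have hcb : c ≠ b := by rintro rfl; exact hc.2 (Or.inl rfl)
        let h' : Up e := ⟨h.1 \ {c}, by
          rintro x y hxy ⟨hx, hxc⟩
          refine ⟨h.2 _ _ hxy hx, ?_⟩
          rintro rfl
          by_cases hx' : x ∈ (up he.2 b).1
          · exact hc.2 ((up he.2 b).2 _ _ hxy hx')
          · exact hmin x ⟨hx, hx'⟩ hxy⟩
        have hh' : h' ∈ X e a b := ⟨fun h1 => hh.1 h1.1, hh.2, fun h1 => hcb h1.symm⟩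
        have hcard : h'.1.ncard = n := by
          have := Set.ncard_sdiff_singleton_add_one hc.1 (Set.toFinite _)
          show (h.1 \ {c}).ncard = n
          omega
        have hadj : ((gr e).induce (X e a b)).Adj ⟨h, hh⟩ ⟨h', hh'⟩ := by
          show (gr e).Adj h h'
          right
          refine ⟨c, fun h1 => h1.2 rfl, ?_⟩
          show h.1 = insert c (h.1 \ {c})
          rw [Set.insert_sdiff_singleton, Set.insert_eq_of_mem hc.1]
        exact hadj.reachable.trans (ih h' hh' hcard)
      · rw [Set.not_nonempty_iff_eq_empty, Set.sdiff_eq_empty] at hne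
        have : h = up he.2 b := by
          apply Subtype.ext
          refine Set.Subset.antisymm hne ?_
          rintro c (rfl | hc)
          · exact hh.2
          · exact h.2 _ _ hc hh.2
        subst this
        exact SimpleGraph.Reachable.refl _
  have : Nonempty (X e a b) := ⟨⟨_, h0⟩⟩
  refine ⟨fun x y => ?_⟩
  exact (key _ x.1 x.2 rfl).trans (key _ y.1 y.2 rfl).symm

/-! ### Representations -/

open scoped Classical in
/-- the indicator function -/
noncomputable def ind (x : Set (Up e)) (h : Up e) : ℚ := if h ∈ x then 1 else 0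

open scoped Classical in
/-- the functional `h ↦ ∑_{c ∈ h} l c` -/
noncomputable def lam [Fintype E] (l : E → ℚ) (h : Up e) : ℚ := ∑ c, if c ∈ h.1 then l c else 0

/-- representable sets -/
def HasRep [Fintype E] (x : Set (Up e)) : Prop :=
  ∃ l : E → ℚ, ∑ c, l c = 0 ∧ ∀ h, ind x h = lam l h

theorem lam_insert [Fintype E] (l : E → ℚ) {h h' : Up e} {c : E} (hc : c ∉ h.1)
    (hh : h'.1 = insert c h.1) : lam l h' = lam l h + l c := by
  classical
  unfold lam
  rw [← Finset.add_sum_erase _ _ (Finset.mem_univ c), ← Finset.add_sum_erase (a := c) Finset.univ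
    (fun c => if c ∈ h.1 then l c else 0) (Finset.mem_univ c)]
  have h1 : c ∈ h'.1 := by rw [hh]; exact Set.mem_insert _ _
  rw [if_pos h1, if_neg hc, zero_add, add_comm]
  congr 1
  apply Finset.sum_congr rfl
  intro d hd
  have hdc : d ≠ c := Finset.ne_of_mem_erase hd
  have : d ∈ h'.1 ↔ d ∈ h.1 := by
    rw [hh, Set.mem_insert_iff]
    simp [hdc]
  simp only [this]

theorem ind_nonneg (x : Set (Up e)) (h : Up e) : 0 ≤ ind x h := by
  unfold ind; split_ifs <;> norm_num

theorem ind_X {a b : E} (hab : (a, b) ∈ e) (h : Up e) :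
    ind (X e a b) h = ind {h | b ∈ h.1} h - ind {h | a ∈ h.1} h := by
  classical
  unfold ind X
  by_cases ha : a ∈ h.1
  · have hb := h.2 _ _ hab ha
    simp [ha, hb]
  · by_cases hb : b ∈ h.1 <;> simp [ha, hb]

theorem up_insert (he : IsStrictOrdering e) (c : E) :
    c ∉ (up' he.2 c).1 ∧ (up he.2 c).1 = insert c (up' he.2 c).1 := by
  refine ⟨he.1 c, ?_⟩
  ext d
  simp [up, up', Set.mem_insert_iff]

theorem dn_insert (he : IsStrictOrdering e) (c : E) :
    c ∉ (dn he.2 c).1 ∧ (dn' he.2 c).1 = insert c (dn he.2 c).1 := by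
  refine ⟨fun h => h (Or.inl rfl), ?_⟩
  ext d
  simp only [dn, dn', Set.mem_insert_iff, Set.mem_ofPred_eq]
  constructor
  · intro h
    by_cases hd : d = c
    · exact Or.inl hd
    · exact Or.inr (fun h' => h'.elim hd h)
  · rintro (rfl | h)
    · exact he.1 _
    · exact fun h' => h (Or.inr h')

/-- the coefficient of `c` -/
theorem coef [Fintype E] (he : IsStrictOrdering e) {x : Set (Up e)} {l : E → ℚ}
    (h : ∀ h, ind x h = lam l h) (c : E) : l c = ind x (up he.2 c) - ind x (up' he.2 c) := by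
  have := lam_insert l (up_insert he c).1 (up_insert he c).2
  rw [h, h, this]; ring

theorem coef' [Fintype E] (he : IsStrictOrdering e) {x : Set (Up e)} {l : E → ℚ}
    (h : ∀ h, ind x h = lam l h) (c : E) : l c = ind x (dn' he.2 c) - ind x (dn he.2 c) := by
  have := lam_insert l (dn_insert he c).1 (dn_insert he c).2
  rw [h, h, this]; ring

theorem ind_cases (x : Set (Up e)) (h : Up e) : (h ∈ x ∧ ind x h = 1) ∨ (h ∉ x ∧ ind x h = 0) := by
  classical
  unfold ind
  by_cases hx : h ∈ x
  · exact Or.inl ⟨hx, if_pos hx⟩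
  · exact Or.inr ⟨hx, if_neg hx⟩

theorem classify [Fintype E] (he : IsStrictOrdering e) {x : Set (Up e)}
    (hx : ((gr e).induce x).Connected) (hr : HasRep x) : ∃ a b, (a, b) ∈ e ∧ x = X e a b := by
  classical
  obtain ⟨l, hl0, hl⟩ := hr
  -- the support is met in the same set by all members of `x`
  have hadj : ∀ h ∈ x, ∀ h' ∈ x, (gr e).Adj h h' → ∀ c, l c ≠ 0 → (c ∈ h.1 ↔ c ∈ h'.1) := by
    have key : ∀ h ∈ x, ∀ h' ∈ x, ∀ d, d ∉ h.1 → h'.1 = insert d h.1 → ∀ c, l c ≠ 0 →
        (c ∈ h.1 ↔ c ∈ h'.1) := by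
      intro h hh h' hh' d hd hdd c hc
      have h1 := lam_insert l hd hdd
      rw [← hl, ← hl] at h1
      rcases ind_cases x h with ⟨-, h2⟩ | ⟨h2, -⟩
      · rcases ind_cases x h' with ⟨-, h3⟩ | ⟨h3, -⟩
        · rw [h2, h3] at h1
          have h4 : l d = 0 := by linarith
          have hcd : c ≠ d := by rintro rfl; exact hc h4
          rw [hdd, Set.mem_insert_iff]
          simp [hcd]
        · exact absurd hh' h3
      · exact absurd hh h2
    rintro h hh h' hh' (⟨d, hd, hdd⟩ | ⟨d, hd, hdd⟩) c hc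
    · exact key h hh h' hh' d hd hdd c hc
    · exact (key h' hh' h hh d hd hdd c hc).symm
  have hconst : ∀ h ∈ x, ∀ h' ∈ x, ∀ c, l c ≠ 0 → (c ∈ h.1 ↔ c ∈ h'.1) := by
    have key : ∀ (h h' : x), ∀ c, l c ≠ 0 → (c ∈ h.1.1 ↔ c ∈ h'.1.1) := by
      intro h h' c hc
      obtain ⟨w⟩ := hx.preconnected h h'
      induction w with
      | nil => exact Iff.rfl
      | @cons u v w huv _ ih => exact (hadj u.1 u.2 v.1 v.2 huv c hc).trans ih
    intro h hh h' hh'
    exact key ⟨h, hh⟩ ⟨h', hh'⟩
  have hval : ∀ c, l c = 1 ∧ up he.2 c ∈ x ∨ l c = 0 ∨ l c = -1 ∧ dn he.2 c ∈ x := by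
    intro c
    have e1 := coef he hl c
    have e2 := coef' he hl c
    rcases ind_cases x (up he.2 c) with ⟨h1, h1'⟩ | ⟨h1, h1'⟩ <;>
    rcases ind_cases x (up' he.2 c) with ⟨h2, h2'⟩ | ⟨h2, h2'⟩ <;>
    rcases ind_cases x (dn he.2 c) with ⟨h3, h3'⟩ | ⟨h3, h3'⟩ <;>
    rcases ind_cases x (dn' he.2 c) with ⟨h4, h4'⟩ | ⟨h4, h4'⟩ <;>
    rw [h1', h2'] at e1 <;> rw [h3', h4'] at e2 <;>
    first
      | exact Or.inr (Or.inl (by linarith))
      | exact Or.inl ⟨by linarith, h1⟩
      | exact Or.inr (Or.inr ⟨by linarith, h3⟩)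
  obtain ⟨⟨h0, hh0⟩⟩ := hx.nonempty
  have hsome : ∃ c, l c ≠ 0 := by
    by_contra hcon
    push Not at hcon
    have h1 := hl h0
    have h2 : lam l h0 = 0 := by
      unfold lam
      apply Finset.sum_eq_zero
      intro c _
      simp [hcon c]
    rcases ind_cases x h0 with ⟨-, h3⟩ | ⟨h3, -⟩
    · rw [h2, h3] at h1; norm_num at h1
    · exact h3 hh0
  obtain ⟨b, hb⟩ : ∃ b, l b = 1 := by
    by_contra hcon
    push Not at hcon
    have hle : ∀ c, l c ≤ 0 := by
      intro c
      rcases hval c with ⟨h, -⟩ | h | ⟨h, -⟩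
      · exact absurd h (hcon c)
      · rw [h]
      · rw [h]; norm_num
    obtain ⟨c, hc⟩ := hsome
    have := (Finset.sum_eq_zero_iff_of_nonpos (fun c _ => hle c)).1 hl0 c (Finset.mem_univ c)
    exact hc this
  obtain ⟨a, ha⟩ : ∃ a, l a = -1 := by
    by_contra hcon
    push Not at hcon
    have hle : ∀ c, 0 ≤ l c := by
      intro c
      rcases hval c with ⟨h, -⟩ | h | ⟨h, -⟩
      · rw [h]; norm_num
      · rw [h]
      · exact absurd h (hcon c)
    obtain ⟨c, hc⟩ := hsome
    have := (Finset.sum_eq_zero_iff_of_nonneg (fun c _ => hle c)).1 hl0 c (Finset.mem_univ c)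
    exact hc this
  have hupb : ∀ c, l c = 1 → up he.2 c ∈ x := by
    intro c hc
    rcases hval c with ⟨-, h⟩ | h | ⟨h, -⟩
    · exact h
    · rw [hc] at h; norm_num at h
    · rw [hc] at h; norm_num at h
  have hdna : ∀ c, l c = -1 → dn he.2 c ∈ x := by
    intro c hc
    rcases hval c with ⟨h, -⟩ | h | ⟨-, h⟩
    · rw [hc] at h; norm_num at h
    · rw [hc] at h; norm_num at h
    · exact h
  have hb1 : ∀ c, l c = 1 → c = b := by
    intro c hc
    by_contra hne
    have h1 := (hconst _ (hupb c hc) _ (hupb b hb) c (by rw [hc]; norm_num)).1 (Or.inl rfl)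
    have h2 := (hconst _ (hupb b hb) _ (hupb c hc) b (by rw [hb]; norm_num)).1 (Or.inl rfl)
    rcases h1 with h1 | h1
    · exact hne h1
    · rcases h2 with h2 | h2
      · exact hne h2.symm
      · exact he.1 _ (he.2 _ _ _ h1 h2)
  have ha1 : ∀ c, l c = -1 → c = a := by
    intro c hc
    by_contra hne
    have h1 := mt (hconst _ (hdna c hc) _ (hdna a ha) c (by rw [hc]; norm_num)).2
      (fun h => h (Or.inl rfl))
    have h2 := mt (hconst _ (hdna a ha) _ (hdna c hc) a (by rw [ha]; norm_num)).2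
      (fun h => h (Or.inl rfl))
    have h1' : c = a ∨ (c, a) ∈ e := by
      by_contra h; exact h1 h
    have h2' : a = c ∨ (a, c) ∈ e := by
      by_contra h; exact h2 h
    rcases h1' with h1 | h1
    · exact hne h1
    · rcases h2' with h2 | h2
      · exact hne h2.symm
      · exact he.1 _ (he.2 _ _ _ h1 h2)
  have hab : a ≠ b := by rintro rfl; rw [ha] at hb; norm_num at hb
  have hl' : ∀ c, l c = (if c = b then 1 else 0) - (if c = a then 1 else 0) := by
    intro c
    rcases hval c with ⟨h, -⟩ | h | ⟨h, -⟩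
    · have := hb1 c h
      subst this
      rw [if_pos rfl, if_neg hab.symm, h]; norm_num
    · have h1 : c ≠ b := by rintro rfl; rw [hb] at h; norm_num at h
      have h2 : c ≠ a := by rintro rfl; rw [ha] at h; norm_num at h
      rw [if_neg h1, if_neg h2, h]; norm_num
    · have := ha1 c h
      subst this
      rw [if_pos rfl, if_neg hab, h]; norm_num
  have hlam : ∀ h : Up e, lam l h = (if b ∈ h.1 then 1 else 0) - (if a ∈ h.1 then 1 else 0) := by
    intro h
    unfold lam
    have : ∀ c, (if c ∈ h.1 then l c else 0) =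
        (if c = b then (if b ∈ h.1 then (1 : ℚ) else 0) else 0) -
        (if c = a then (if a ∈ h.1 then (1 : ℚ) else 0) else 0) := by
      intro c
      rw [hl' c]
      by_cases h1 : c = b
      · subst h1
        by_cases h2 : c ∈ h.1 <;> simp [h2, hab.symm]
      · by_cases h3 : c = a
        · subst h3
          by_cases h2 : c ∈ h.1 <;> simp [h2, h1]
        · simp [h1, h3]
    rw [Finset.sum_congr rfl (fun c _ => this c), Finset.sum_sub_distrib]
    simp
  refine ⟨a, b, ?_, ?_⟩
  · have h1 := ind_nonneg x (up he.2 a)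
    rw [hl, hlam, if_pos (show a ∈ (up he.2 a).1 from Or.inl rfl)] at h1
    by_cases h2 : b ∈ (up he.2 a).1
    · rcases h2 with h2 | h2
      · exact absurd h2.symm hab
      · exact h2
    · rw [if_neg h2] at h1; norm_num at h1
  · ext h
    have h1 := (hl h).trans (hlam h)
    constructor
    · intro hh
      rcases ind_cases x h with ⟨-, h2⟩ | ⟨h2, -⟩
      · rw [h2] at h1
        by_cases h3 : a ∈ h.1
        · by_cases h4 : b ∈ h.1 <;> simp [h3, h4] at h1
          norm_num at h1
        · by_cases h4 : b ∈ h.1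
          · exact ⟨h3, h4⟩
          · simp [h3, h4] at h1
      · exact absurd hh h2
    · rintro ⟨h3, h4⟩
      rcases ind_cases x h with ⟨h2, -⟩ | ⟨-, h2⟩
      · exact h2
      · rw [h2, if_neg h3, if_pos h4] at h1
        norm_num at h1

/-- the space of the representable functions -/
noncomputable def repSpace (e : Set (E × E)) [Fintype E] : Submodule ℚ (Up e → ℚ) where
  carrier := {f | ∃ l : E → ℚ, ∑ c, l c = 0 ∧ ∀ h, f h = lam l h}
  add_mem' := by
    rintro f g ⟨l, hl, hl'⟩ ⟨m, hm, hm'⟩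
    refine ⟨l + m, ?_, fun h => ?_⟩
    · simp only [Pi.add_apply, Finset.sum_add_distrib, hl, hm, add_zero]
    · rw [Pi.add_apply, hl', hm']
      unfold lam
      rw [← Finset.sum_add_distrib]
      refine Finset.sum_congr rfl fun c _ => ?_
      split_ifs <;> simp
  zero_mem' := ⟨0, by simp, fun h => by simp [lam]⟩
  smul_mem' := by
    rintro t f ⟨l, hl, hl'⟩
    refine ⟨t • l, ?_, fun h => ?_⟩
    · simp only [Pi.smul_apply, smul_eq_mul, ← Finset.mul_sum, hl, mul_zero]
    · rw [Pi.smul_apply, hl', smul_eq_mul]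
      unfold lam
      rw [Finset.mul_sum]
      refine Finset.sum_congr rfl fun c _ => ?_
      split_ifs <;> simp

instance [Finite E] : Finite (Up e) := by
  unfold Up; infer_instance

theorem ind_union {x y : Set (Up e)} (hxy : Disjoint x y) : ind (x ∪ y) = ind x + ind y := by
  classical
  ext h
  unfold ind
  rw [Pi.add_apply]
  by_cases hx : h ∈ x
  · have hy : h ∉ y := fun hy => Set.disjoint_left.1 hxy hx hy
    simp [hx, hy]
  · by_cases hy : h ∈ y <;> simp [hx, hy]

theorem exists_phi (e : Set (E × E)) [Fintype E] :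
    ∃ (n : ℕ) (φ : Set (Up e) → Lex (Fin n → ℚ)),
      (∀ x y, Disjoint x y → φ (x ∪ y) = φ x + φ y) ∧ ∀ x, φ x = 0 ↔ HasRep x := by
  obtain ⟨n, f, hf, hf0⟩ := exists_order ((Up e → ℚ) ⧸ repSpace e)
  refine ⟨n, fun x => f ((repSpace e).mkQ (ind x)), ?_, ?_⟩
  · intro x y hxy
    show f ((repSpace e).mkQ (ind (x ∪ y))) = f ((repSpace e).mkQ (ind x)) +
      f ((repSpace e).mkQ (ind y))
    rw [ind_union hxy, map_add, hf]
  · intro x
    rw [hf0, Submodule.mkQ_apply, Submodule.Quotient.mk_eq_zero]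
    exact Iff.rfl

/-! ### The embedding -/

section Emb

variable {n : ℕ} (φ : Set (Up e) → Lex (Fin n → ℚ))

/-- the family attached to `a ⊆ e` -/
def Fam (a : Set (E × E)) : Set (So (gr e)) :=
  {x | 0 < φ x.1 ∨ ∃ p ∈ a, x.1 = X e p.1 p.2}

/-- the hypotheses on `φ` -/
structure Fine [Fintype E] : Prop where
  add : ∀ x y, Disjoint x y → φ (x ∪ y) = φ x + φ y
  zero : ∀ x, φ x = 0 ↔ HasRep x

variable {φ}

theorem Fine.neg [Fintype E] (h : Fine φ) : Fine (fun x => - φ x) :=
  ⟨fun x y hxy => by rw [h.add x y hxy, neg_add], fun x => by rw [neg_eq_zero, h.zero]⟩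

theorem hasRep_X [Fintype E] {a b : E} (hab : (a, b) ∈ e) : HasRep (X e a b) := by
  classical
  refine ⟨fun c => (if c = b then 1 else 0) - (if c = a then 1 else 0), by simp, fun h => ?_⟩
  rw [ind_X hab]
  unfold lam ind
  have : ∀ c, (if c ∈ h.1 then ((if c = b then (1 : ℚ) else 0) - (if c = a then 1 else 0)) else 0) =
      (if c = b then (if b ∈ h.1 then (1 : ℚ) else 0) else 0) -
      (if c = a then (if a ∈ h.1 then (1 : ℚ) else 0) else 0) := by
    intro c
    by_cases h1 : c = b
    · subst h1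
      by_cases h3 : c = a
      · subst h3; simp
      · by_cases h2 : c ∈ h.1 <;> simp [h2, h3]
    · by_cases h3 : c = a
      · subst h3
        by_cases h2 : c ∈ h.1 <;> simp [h2, h1]
      · simp [h1, h3]
  rw [Finset.sum_congr rfl (fun c _ => this c), Finset.sum_sub_distrib]
  simp

theorem Fine.X [Fintype E] (h : Fine φ) {a b : E} (hab : (a, b) ∈ e) : φ (X e a b) = 0 :=
  (h.zero _).2 (hasRep_X hab)

/-- the difference of `ind (X a b)` at two successive up-sets -/
theorem diff_X (he : IsStrictOrdering e) {a b : E} (hab : (a, b) ∈ e) (c : E) [DecidableEq E] :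
    ind (X e a b) (up he.2 c) - ind (X e a b) (up' he.2 c) =
      (if c = b then 1 else 0) - (if c = a then 1 else 0) := by
  classical
  rw [ind_X hab, ind_X hab]
  have key : ∀ d : E, ind {h : Up e | d ∈ h.1} (up he.2 c) - ind {h : Up e | d ∈ h.1} (up' he.2 c) =
      (if c = d then 1 else 0 : ℚ) := by
    intro d
    unfold ind
    by_cases hcd : c = d
    · subst hcd
      have h1 : c ∈ (up he.2 c).1 := Or.inl rfl
      have h2 : c ∉ (up' he.2 c).1 := he.1 c
      simp [h1, h2]
    · have h1 : d ∈ (up he.2 c).1 ↔ d ∈ (up' he.2 c).1 := by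
        constructor
        · rintro (h | h)
          · exact absurd h.symm hcd
          · exact h
        · exact fun h => Or.inr h
      simp [h1, hcd]
  linarith [key a, key b]

theorem X_inj (he : IsStrictOrdering e) {a b c d : E} (hab : (a, b) ∈ e) (hcd : (c, d) ∈ e)
    (h : X e a b = X e c d) : a = c ∧ b = d := by
  classical
  have h1 : ∀ t : E, ((if t = b then 1 else 0) - (if t = a then 1 else 0) : ℚ) =
      (if t = d then 1 else 0) - (if t = c then 1 else 0) := by
    intro t
    rw [← diff_X he hab t, ← diff_X he hcd t, h]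
  have hne : a ≠ b := by rintro rfl; exact he.1 _ hab
  have hne' : c ≠ d := by rintro rfl; exact he.1 _ hcd
  have ha := h1 a
  have hb := h1 b
  rw [if_neg hne, if_pos rfl] at ha
  rw [if_neg hne.symm, if_pos rfl] at hb
  constructor
  · by_contra hac
    rw [if_neg hac] at ha
    by_cases had : a = d
    · rw [if_pos had] at ha; norm_num at ha
    · rw [if_neg had] at ha; norm_num at ha
  · by_contra hbd
    rw [if_neg hbd] at hb
    by_cases hbc : b = c
    · rw [if_pos hbc] at hb; norm_num at hb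
    · rw [if_neg hbc] at hb; norm_num at hb

/-- if the disjoint union of two sets `X a b`, `X c d` is again such a set then `b = c` or
`a = d` -/
theorem X_union (he : IsStrictOrdering e) {a b c d a' b' : E} (hab : (a, b) ∈ e) (hcd : (c, d) ∈ e)
    (hab' : (a', b') ∈ e) (hdis : Disjoint (X e a b) (X e c d))
    (h : X e a' b' = X e a b ∪ X e c d) : b = c ∨ a = d := by
  classical
  have h1 : ∀ t : E, ((if t = b' then 1 else 0) - (if t = a' then 1 else 0) : ℚ) =
      ((if t = b then 1 else 0) - (if t = a then 1 else 0)) +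
      ((if t = d then 1 else 0) - (if t = c then 1 else 0)) := by
    intro t
    rw [← diff_X he hab t, ← diff_X he hcd t, ← diff_X he hab' t, h, ind_union hdis]
    simp only [Pi.add_apply]
    ring
  by_contra hcon
  push Not at hcon
  obtain ⟨hbc, had⟩ := hcon
  have hne : a ≠ b := by rintro rfl; exact he.1 _ hab
  have hne' : c ≠ d := by rintro rfl; exact he.1 _ hcd
  have hb := h1 b
  have hd := h1 d
  rw [if_pos rfl, if_neg hne.symm, if_neg hbc] at hb
  rw [if_neg (Ne.symm had), if_pos rfl, if_neg hne'.symm] at hd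
  by_cases hbd : b = d
  · subst hbd
    rw [if_pos rfl] at hb
    by_cases h2 : b = b'
    · rw [if_pos h2] at hb
      by_cases h3 : b = a'
      · rw [if_pos h3] at hb; norm_num at hb
      · rw [if_neg h3] at hb; norm_num at hb
    · rw [if_neg h2] at hb
      by_cases h3 : b = a'
      · rw [if_pos h3] at hb; norm_num at hb
      · rw [if_neg h3] at hb; norm_num at hb
  · rw [if_neg hbd] at hb
    rw [if_neg (Ne.symm hbd)] at hd
    have h2 : b = b' := by
      by_contra h2
      rw [if_neg h2] at hb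
      by_cases h3 : b = a'
      · rw [if_pos h3] at hb; norm_num at hb
      · rw [if_neg h3] at hb; norm_num at hb
    have h4 : d = b' := by
      by_contra h2
      rw [if_neg h2] at hd
      by_cases h3 : d = a'
      · rw [if_pos h3] at hd; norm_num at hd
      · rw [if_neg h3] at hd; norm_num at hd
    exact hbd (h2.trans h4.symm)

theorem X_comp {a b c : E} (h1 : (a, c) ∈ e) (h2 : (c, b) ∈ e) :
    Disjoint (X e a c) (X e c b) ∧ X e a b = X e a c ∪ X e c b := by
  constructor
  · rw [Set.disjoint_left]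
    rintro h ⟨-, h3⟩ ⟨h4, -⟩
    exact h4 h3
  · ext h
    constructor
    · rintro ⟨h3, h4⟩
      by_cases h5 : c ∈ h.1
      · exact Or.inl ⟨h3, h5⟩
      · exact Or.inr ⟨h5, h4⟩
    · rintro (⟨h3, h4⟩ | ⟨h3, h4⟩)
      · exact ⟨h3, h.2 _ _ h2 h4⟩
      · exact ⟨fun h5 => h3 (h.2 _ _ h1 h5), h4⟩

theorem cl_Fam [Fintype E] (he : IsStrictOrdering e) (hφ : Fine φ) {a : Set (E × E)}
    (ha : a ⊆ e) : cl (Fam φ a) = Fam φ (RegTree.cl a) := by
  have hcle : RegTree.cl a ⊆ e := RegTree.cl_subset ha he.2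
  apply Set.Subset.antisymm
  · apply cl_min
    · rintro x (hx | ⟨p, hp, hx⟩)
      · exact Or.inl hx
      · exact Or.inr ⟨p, RegTree.subset_cl a hp, hx⟩
    · rintro x y z hx hy hd hz
      have hsum : φ z.1 = φ x.1 + φ y.1 := by rw [hz, hφ.add _ _ hd]
      rcases hx with hx | ⟨⟨a1, b1⟩, hp, hx⟩
      · rcases hy with hy | ⟨⟨a2, b2⟩, hq, hy⟩
        · left; rw [hsum]; exact add_pos hx hy
        · left; rw [hsum, hy, hφ.X (hcle hq), add_zero]; exact hx
      · rcases hy with hy | ⟨⟨a2, b2⟩, hq, hy⟩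
        · left; rw [hsum, hx, hφ.X (hcle hp), zero_add]; exact hy
        · right
          have h0 : φ z.1 = 0 := by
            rw [hsum, hx, hy, hφ.X (hcle hp), hφ.X (hcle hq), add_zero]
          obtain ⟨a', b', hab', hz'⟩ := classify he z.2 ((hφ.zero _).1 h0)
          simp only at hx hy
          rcases X_union he (hcle hp) (hcle hq) hab' (by rw [← hx, ← hy]; exact hd)
            (by rw [← hx, ← hy, ← hz', hz]) with h | h
          · subst h
            refine ⟨(a1, b2), RegTree.cl_transitive a _ _ _ hp hq, ?_⟩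
            rw [hz, hx, hy, (X_comp (hcle hp) (hcle hq)).2]
          · subst h
            refine ⟨(a2, b1), RegTree.cl_transitive a _ _ _ hq hp, ?_⟩
            rw [hz, hx, hy, (X_comp (hcle hq) (hcle hp)).2, Set.union_comm]
  · rintro x (hx | ⟨⟨a1, b1⟩, hp, hx⟩)
    · exact subset_cl _ (Or.inl hx)
    · simp only at hx
      change Relation.TransGen (fun x y => (x, y) ∈ a) a1 b1 at hp
      have key : ∀ b, Relation.TransGen (fun x y => (x, y) ∈ a) a1 b → ∀ x : So (gr e),
          x.1 = X e a1 b → x ∈ cl (Fam φ a) := by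
        intro b hb
        induction hb with
        | single h1 =>
          intro x hx
          exact subset_cl _ (Or.inr ⟨_, h1, hx⟩)
        | @tail c d h1 h2 ih =>
          intro x hx
          have h1' : (a1, c) ∈ e := hcle h1
          have h2' : (c, d) ∈ e := ha h2
          exact cl_closed _ ⟨X e a1 c, X_connected he h1'⟩ ⟨X e c d, X_connected he h2'⟩ x
            (ih _ rfl) (subset_cl _ (Or.inr ⟨_, h2, rfl⟩)) (X_comp h1' h2').1
            (hx.trans (X_comp h1' h2').2)
      exact key b1 hp x hx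

theorem compl_Fam [Fintype E] (he : IsStrictOrdering e) (hφ : Fine φ) {a : Set (E × E)}
    (ha : a ⊆ e) : (Fam φ a)ᶜ = Fam (fun x => - φ x) (e \ a) := by
  ext x
  simp only [Fam, Set.mem_compl_iff, Set.mem_ofPred_eq, not_or, Left.neg_pos_iff, Set.mem_sdiff]
  constructor
  · rintro ⟨h1, h2⟩
    rcases lt_trichotomy (φ x.1) 0 with h | h | h
    · exact Or.inl h
    · right
      obtain ⟨a', b', hab', hx⟩ := classify he x.2 ((hφ.zero _).1 h)
      exact ⟨(a', b'), ⟨hab', fun h3 => h2 ⟨_, h3, hx⟩⟩, hx⟩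
    · exact absurd h h1
  · rintro (h | ⟨⟨a1, b1⟩, ⟨h1, h2⟩, h3⟩)
    · refine ⟨fun h' => lt_asymm h h', ?_⟩
      rintro ⟨p, hp, hx⟩
      rw [hx, hφ.X (ha hp)] at h
      exact lt_irrefl _ h
    · simp only at h3
      refine ⟨fun h' => ?_, ?_⟩
      · rw [h3, hφ.X h1] at h'
        exact lt_irrefl _ h'
      · rintro ⟨⟨a2, b2⟩, hp, hx⟩
        simp only at hx
        obtain ⟨rfl, rfl⟩ := X_inj he h1 (ha hp) (h3.symm.trans hx)
        exact h2 hp

theorem int_Fam [Fintype E] (he : IsStrictOrdering e) (hφ : Fine φ) {a : Set (E × E)}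
    (ha : a ⊆ e) : int (Fam φ a) = Fam φ (RegTree.interior e a) := by
  unfold int
  rw [compl_Fam he hφ ha, cl_Fam he hφ.neg Set.sdiff_subset,
    compl_Fam he hφ.neg (RegTree.cl_subset Set.sdiff_subset he.2), RegTree.interior_eq he.2]
  simp only [neg_neg]

theorem Fam_inj [Fintype E] (he : IsStrictOrdering e) (hφ : Fine φ) {a b : Set (E × E)}
    (ha : a ⊆ e) (hb : b ⊆ e) (h : Fam φ a = Fam φ b) : a = b := by
  have key : ∀ a b : Set (E × E), a ⊆ e → b ⊆ e → Fam φ a = Fam φ b → a ⊆ b := by
    rintro a b ha hb h ⟨c, d⟩ hp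
    have h1 : (⟨X e c d, X_connected he (ha hp)⟩ : So (gr e)) ∈ Fam φ b := by
      rw [← h]; exact Or.inr ⟨_, hp, rfl⟩
    rcases h1 with h1 | ⟨⟨c', d'⟩, h1, h2⟩
    · have h1' : 0 < φ (X e c d) := h1
      rw [hφ.X (ha hp)] at h1'
      exact absurd h1' (lt_irrefl _)
    · have h2' : X e c d = X e c' d' := h2
      obtain ⟨rfl, rfl⟩ := X_inj he (ha hp) (hb h1) h2'
      exact h1
  exact Set.Subset.antisymm (key a b ha hb h) (key b a hb ha h.symm)

/-- the embedding of `Reg(e)` in `R(G)` -/
def emb [Fintype E] (he : IsStrictOrdering e) (hφ : Fine φ) (a : RegTree.Reg e) : R (gr e) :=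
  ⟨Fam φ a.1, by
    have h := a.2.2
    unfold IsRegularClosed
    rw [int_Fam he hφ a.2.1, cl_Fam he hφ ((RegTree.interior_subset _ _).trans a.2.1), ← h]⟩

theorem emb_inj [Fintype E] (he : IsStrictOrdering e) (hφ : Fine φ) {a b : RegTree.Reg e}
    (h : emb he hφ a = emb he hφ b) : a = b :=
  Subtype.ext (Fam_inj he hφ a.2.1 b.2.1 (congrArg Subtype.val h))

theorem Fam_union (a b : Set (E × E)) : Fam φ a ∪ Fam φ b = Fam φ (a ∪ b) := by
  ext x
  constructor
  · rintro ((h | ⟨p, hp, hx⟩) | (h | ⟨p, hp, hx⟩))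
    · exact Or.inl h
    · exact Or.inr ⟨p, Or.inl hp, hx⟩
    · exact Or.inl h
    · exact Or.inr ⟨p, Or.inr hp, hx⟩
  · rintro (h | ⟨p, hp | hp, hx⟩)
    · exact Or.inl (Or.inl h)
    · exact Or.inl (Or.inr ⟨p, hp, hx⟩)
    · exact Or.inr (Or.inr ⟨p, hp, hx⟩)

theorem Fam_inter (he : IsStrictOrdering e) {a b : Set (E × E)}
    (ha : a ⊆ e) (hb : b ⊆ e) : Fam φ a ∩ Fam φ b = Fam φ (a ∩ b) := by
  ext x
  constructor
  · rintro ⟨h | ⟨⟨c, d⟩, hp, hx⟩, h' | ⟨⟨c', d'⟩, hp', hx'⟩⟩
    · exact Or.inl h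
    · exact Or.inl h
    · exact Or.inl h'
    · simp only at hx hx'
      obtain ⟨rfl, rfl⟩ := X_inj he (ha hp) (hb hp') (hx.symm.trans hx')
      exact Or.inr ⟨_, ⟨hp, hp'⟩, hx⟩
  · rintro (h | ⟨p, hp, hx⟩)
    · exact ⟨Or.inl h, Or.inl h⟩
    · exact ⟨Or.inr ⟨p, hp.1, hx⟩, Or.inr ⟨p, hp.2, hx⟩⟩

theorem emb_sup [Fintype E] (he : IsStrictOrdering e) (hφ : Fine φ) (a b : RegTree.Reg e) :
    emb he hφ (RegTree.Reg.sup e he.2 a b) = R.sup (emb he hφ a) (emb he hφ b) := by
  apply Subtype.ext
  show Fam φ (RegTree.cl (a.1 ∪ b.1)) = cl (Fam φ a.1 ∪ Fam φ b.1)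
  rw [Fam_union, cl_Fam he hφ (Set.union_subset a.2.1 b.2.1)]

theorem emb_inf [Fintype E] (he : IsStrictOrdering e) (hφ : Fine φ) (a b : RegTree.Reg e) :
    emb he hφ (RegTree.Reg.inf e he.2 a b) = R.inf (emb he hφ a) (emb he hφ b) := by
  apply Subtype.ext
  show Fam φ (RegTree.cl (RegTree.interior e (a.1 ∩ b.1))) = cl (int (Fam φ a.1 ∩ Fam φ b.1))
  have h1 : a.1 ∩ b.1 ⊆ e := Set.inter_subset_left.trans a.2.1
  rw [Fam_inter he a.2.1 b.2.1, int_Fam he hφ h1,
    cl_Fam he hφ ((RegTree.interior_subset _ _).trans h1)]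

theorem emb_eval [Fintype E] (he : IsStrictOrdering e) (hφ : Fine φ) (F : ℕ → RegTree.Reg e)
    (t : LTerm) :
    emb he hφ (@LTerm.eval (RegTree.Reg e) (RegTree.Reg.lattice e he.2) F t) =
      @LTerm.eval (R (gr e)) (R.lattice (gr e)) (fun i => emb he hφ (F i)) t := by
  induction t with
  | var i => rfl
  | sup s t hs ht => exact (emb_sup he hφ _ _).trans (congrArg₂ R.sup hs ht)
  | inf s t hs ht => exact (emb_inf he hφ _ _).trans (congrArg₂ R.inf hs ht)

end Emb

end Graph

universe u

/-- If the identity `s = t` holds in the lattice `R(G)` for all finite graphs `G`, then it holds in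
every lattice. -/
theorem main (s t : LTerm)
    (h : ∀ (V : Type) [Finite V] (G : SimpleGraph V) (F : ℕ → R G),
      @LTerm.eval (R G) (R.lattice G) F s = @LTerm.eval (R G) (R.lattice G) F t)
    (K : Type u) [Lattice K] (v : ℕ → K) : s.eval v = t.eval v := by
  refine RegTree.main s t ?_ K v
  intro E _ e he F
  have := Fintype.ofFinite E
  obtain ⟨n, φ, h1, h2⟩ := exists_phi e
  have hφ : Fine φ := ⟨h1, h2⟩
  apply emb_inj he hφ
  rw [emb_eval, emb_eval]
  exact h (Up e) (gr e) _

end Pool.Agent.T9h76.RegGraph
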